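import Pool.Agent.Q82.BB.Stm

/-! JOB UNB of project BB (helper82): the unbounded derivative. -/

set_option autoImplicit false

open MeasureTheory Filter Topology Set

namespace Pool.Agent.Q231.BB.UNB

open Pool.Agent.Q82.BB

theorem chi_nonneg (ξ : ℝ) : 0 ≤ chi ξ := bump.nonneg

theorem chi_le_one (ξ : ℝ) : chi ξ ≤ 1 := bump.le_one

theorem chi_one {ξ : ℝ} (h : |ξ| ≤ 2) : chi ξ = 1 := by
  unfold chi
  apply bump.one_of_mem_closedBall
  rw [mem_closedBall_zero_iff, Real.norm_eq_abs]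
  exact h

theorem chi_zero {ξ : ℝ} (h : 3 ≤ |ξ|) : chi ξ = 0 := by
  unfold chi
  apply bump.zero_of_le_dist
  rw [dist_zero_right, Real.norm_eq_abs]
  exact h

theorem lam_ge {ξ : ℝ} (h : 2 ≤ |ξ|) : ξ ^ 2 / 2 ≤ lam ξ := by
  have h1 : 4 ≤ ξ ^ 2 := by
    rw [← sq_abs]
    nlinarith
  unfold lam mu
  apply Real.le_sqrt_of_sq_le
  nlinarith

theorem lam_le (ξ : ℝ) : lam ξ ≤ ξ ^ 2 := by
  unfold lam mu
  rw [Real.sqrt_le_iff]
  constructor
  · positivity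
  · nlinarith [sq_nonneg ξ]

/-- the real factor -/
noncomputable def RR (ε ξ τ : ℝ) : ℝ :=
  2 * ε * (1 - chi ξ) * Real.exp (-(lam ξ * τ)) * Real.cos ξ / |ξ|

theorem w0_mul (p : ℕ) (ε ξ τ : ℝ) :
    (Complex.I * ξ) ^ p * w0 p ε ξ τ = ((RR ε ξ τ : ℝ) : ℂ) := by
  by_cases h : ξ = 0
  · subst h
    simp [w0, RR]
  · have h1 : (Complex.I * (ξ : ℂ)) ^ p ≠ 0 := by
      apply pow_ne_zero
      apply mul_ne_zero Complex.I_ne_zero
      exact_mod_cast h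
    unfold w0
    rw [mul_comm, mul_assoc, inv_mul_cancel₀ h1, mul_one]
    rfl

theorem RR_bound {ε τ : ℝ} (hε : 0 < ε) (hτ : 0 ≤ τ) (ξ : ℝ) :
    |RR ε ξ τ| ≤ 2 * ε * Real.exp (-(τ / 2) * ξ ^ 2) := by
  rcases le_or_gt |ξ| 2 with h | h
  · have h1 : RR ε ξ τ = 0 := by
      simp [RR, chi_one h]
    rw [h1, abs_zero]
    positivity
  · have h1 := lam_ge h.le
    have h2 := chi_nonneg ξ
    have h3 := chi_le_one ξ
    unfold RR
    rw [abs_div, abs_mul, abs_mul, abs_mul, abs_mul, abs_abs, abs_of_pos (show (0 : ℝ) < 2 by norm_num),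
      abs_of_pos hε, abs_of_nonneg (show 0 ≤ 1 - chi ξ by linarith), abs_of_pos (Real.exp_pos _)]
    have h4 : |Real.cos ξ| ≤ 1 := Real.abs_cos_le_one ξ
    have h5 : Real.exp (-(lam ξ * τ)) ≤ Real.exp (-(τ / 2) * ξ ^ 2) := by
      apply Real.exp_le_exp.2
      nlinarith
    have h6 : 2 * ε * (1 - chi ξ) * Real.exp (-(lam ξ * τ)) * |Real.cos ξ| ≤
        2 * ε * 1 * Real.exp (-(τ / 2) * ξ ^ 2) * 1 := by
      gcongr
      linarith
    rw [div_le_iff₀ (by linarith)]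
    have h7 : 0 ≤ 2 * ε * Real.exp (-(τ / 2) * ξ ^ 2) := by positivity
    nlinarith

theorem RR_cos_nonneg {ε τ : ℝ} (hε : 0 < ε) (ξ : ℝ) : 0 ≤ RR ε ξ τ * Real.cos ξ := by
  have h3 := chi_le_one ξ
  have h1 : RR ε ξ τ * Real.cos ξ =
      2 * ε * (1 - chi ξ) * Real.exp (-(lam ξ * τ)) * Real.cos ξ ^ 2 / |ξ| := by
    unfold RR
    ring
  rw [h1]
  have h4 : 0 ≤ 1 - chi ξ := by linarith
  positivity

theorem RR_cos_low {ε τ R ξ : ℝ} (hε : 0 < ε) (hτ : 0 ≤ τ)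
    (hτR : Real.exp (-(R ^ 2 * τ)) ≥ 1 / 2) (h3 : 3 ≤ ξ) (hR : ξ ≤ R) :
    ε * (Real.cos ξ ^ 2 / ξ) ≤ RR ε ξ τ * Real.cos ξ := by
  have h1 : RR ε ξ τ * Real.cos ξ =
      2 * ε * (1 - chi ξ) * Real.exp (-(lam ξ * τ)) * (Real.cos ξ ^ 2 / |ξ|) := by
    unfold RR
    ring
  have hx : |ξ| = ξ := abs_of_nonneg (by linarith)
  have h2 : chi ξ = 0 := chi_zero (by rw [hx]; exact h3)
  rw [h1, h2, hx]
  have h4 : Real.exp (-(R ^ 2 * τ)) ≤ Real.exp (-(lam ξ * τ)) := by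
    apply Real.exp_le_exp.2
    have h5 := lam_le ξ
    have h6 : ξ ^ 2 ≤ R ^ 2 := by nlinarith
    nlinarith
  have h7 : 0 ≤ Real.cos ξ ^ 2 / ξ := by positivity
  have h8 : ε * (Real.cos ξ ^ 2 / ξ) * 1 ≤
      ε * (Real.cos ξ ^ 2 / ξ) * (2 * Real.exp (-(lam ξ * τ))) := by
    apply mul_le_mul_of_nonneg_left _ (by positivity)
    linarith
  linarith

/-- divergence of the integral of `cos² ξ / ξ` -/
theorem int_low {R : ℝ} (hR : 3 ≤ R) :
    1 / 2 * Real.log R - (1 / 2 * Real.log 3 + Real.sin (2 * 3) / (4 * 3) + 1 / (4 * 3)) ≤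
      ∫ ξ in (3 : ℝ)..R, Real.cos ξ ^ 2 / ξ := by
  have hder : ∀ ξ : ℝ, 0 < ξ → HasDerivAt
      (fun ξ : ℝ => 1 / 2 * Real.log ξ + Real.sin (2 * ξ) / (4 * ξ) + 1 / (4 * ξ))
      (Real.cos ξ ^ 2 / ξ - (1 + Real.sin (2 * ξ)) / (4 * ξ ^ 2)) ξ := by
    intro ξ hξ
    have h1 : HasDerivAt (fun ξ : ℝ => 1 / 2 * Real.log ξ) (1 / 2 * ξ⁻¹) ξ :=
      (Real.hasDerivAt_log hξ.ne').const_mul _
    have h2 : HasDerivAt (fun ξ : ℝ => Real.sin (2 * ξ)) (Real.cos (2 * ξ) * (2 * 1)) ξ :=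
      ((hasDerivAt_id ξ).const_mul 2).sin
    have h3 : HasDerivAt (fun ξ : ℝ => 4 * ξ) (4 * 1) ξ := (hasDerivAt_id ξ).const_mul 4
    have h4 : HasDerivAt (fun _ : ℝ => (1 : ℝ)) 0 ξ := hasDerivAt_const ξ 1
    have h5 := (h1.add (h2.div h3 (by positivity))).add (h4.div h3 (by positivity))
    refine h5.congr_deriv ?_
    rw [Real.cos_two_mul]
    field_simp
    ring
  have h := intervalIntegral.sub_le_integral_of_hasDeriv_right_of_le hR
    (g := fun ξ : ℝ => 1 / 2 * Real.log ξ + Real.sin (2 * ξ) / (4 * ξ) + 1 / (4 * ξ))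
    (g' := fun ξ => Real.cos ξ ^ 2 / ξ - (1 + Real.sin (2 * ξ)) / (4 * ξ ^ 2))
    (φ := fun ξ => Real.cos ξ ^ 2 / ξ)
    (fun ξ hξ => (hder ξ (by linarith [hξ.1])).continuousAt.continuousWithinAt)
    (fun ξ hξ => (hder ξ (by linarith [hξ.1])).hasDerivWithinAt)
    (by
      apply ContinuousOn.integrableOn_Icc
      apply ContinuousOn.div (by fun_prop) (by fun_prop)
      intro ξ hξ
      linarith [hξ.1])
    (fun ξ hξ => by
      have h1 := Real.neg_one_le_sin (2 * ξ)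
      have h2 : 0 ≤ (1 + Real.sin (2 * ξ)) / (4 * ξ ^ 2) := by
        apply div_nonneg (by linarith) (by positivity)
      linarith)
  refine le_trans ?_ h
  have h1 := Real.neg_one_le_sin (2 * R)
  have h2 : 0 ≤ (1 + Real.sin (2 * R)) / (4 * R) := by
    apply div_nonneg (by linarith) (by linarith)
  rw [add_div] at h2
  linarith

theorem unb : S_UNB := by
  intro T p ε w n hT hε hw hwn hn x hx
  obtain ⟨C, hC⟩ := hn
  have hC0 : 0 ≤ C := by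
    by_contra hneg
    rw [not_le] at hneg
    have h1 := hC 0 (T / 2) ⟨by linarith, by linarith⟩
    have h2 : 0 < ex 0 (T / 2) / (1 + |(0 : ℝ)|) ^ (p + 2) := by
      unfold ex
      positivity
    have h3 := norm_nonneg (n 0 (T / 2))
    nlinarith
  have hcosx : ∀ ξ : ℝ, Real.cos (x * ξ) = Real.cos ξ := by
    intro ξ
    rcases hx with rfl | rfl
    · rw [one_mul]
    · rw [neg_one_mul, Real.cos_neg]
  have hsplit : ∀ τ ∈ Ioo 0 T, ∀ ξ : ℝ, (Complex.I * ξ) ^ p * w ξ τ *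
      Complex.exp (Complex.I * x * ξ) = ((RR ε ξ τ : ℝ) : ℂ) * Complex.exp (Complex.I * x * ξ) +
      (Complex.I * ξ) ^ p * n ξ τ * Complex.exp (Complex.I * x * ξ) := by
    intro τ hτ ξ
    rw [hwn ξ τ hτ, mul_add, add_mul, w0_mul]
  have hexp : ∀ ξ : ℝ, Complex.exp (Complex.I * x * ξ) =
      Complex.exp (((x * ξ : ℝ) : ℂ) * Complex.I) := by
    intro ξ
    congr 1
    push_cast
    ring
  have hnexp : ∀ ξ : ℝ, ‖Complex.exp (Complex.I * x * ξ)‖ = 1 := by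
    intro ξ
    rw [hexp, Complex.norm_exp_ofReal_mul_I]
  have hnb : ∀ τ ∈ Ioo 0 T, ∀ ξ : ℝ, ‖(Complex.I * ξ) ^ p * n ξ τ *
      Complex.exp (Complex.I * x * ξ)‖ ≤ C * (1 + ξ ^ 2)⁻¹ := by
    intro τ hτ ξ
    rw [norm_mul, norm_mul, hnexp, mul_one, norm_pow, norm_mul, Complex.norm_I, one_mul,
      Complex.norm_real, Real.norm_eq_abs]
    have h1 := hC ξ τ hτ
    have h2 : |ξ| ^ p * ‖n ξ τ‖ ≤ |ξ| ^ p * (C * (ex ξ τ / (1 + |ξ|) ^ (p + 2))) :=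
      mul_le_mul_of_nonneg_left h1 (by positivity)
    refine h2.trans ?_
    have h3 : ex ξ τ ≤ 1 := by
      unfold ex
      rw [Real.exp_le_one_iff]
      have := hτ.1.le
      have h4 : 0 ≤ τ * |ξ| / 16 := by positivity
      linarith
    have h4 : 0 < ex ξ τ := Real.exp_pos _
    have h5 : |ξ| ^ p ≤ (1 + |ξ|) ^ p := by
      gcongr
      linarith
    have h6 : (1 + |ξ|) ^ (p + 2) = (1 + |ξ|) ^ p * (1 + |ξ|) ^ 2 := pow_add _ _ _
    have h7 : 1 + ξ ^ 2 ≤ (1 + |ξ|) ^ 2 := by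
      have := sq_abs ξ
      nlinarith [abs_nonneg ξ]
    have h8 : |ξ| ^ p * (C * (ex ξ τ / (1 + |ξ|) ^ (p + 2))) =
        C * ((|ξ| ^ p * ex ξ τ) / ((1 + |ξ|) ^ p * (1 + |ξ|) ^ 2)) := by
      rw [h6]
      ring
    rw [h8]
    apply mul_le_mul_of_nonneg_left _ hC0
    rw [div_le_iff₀ (by positivity), inv_mul_eq_div, le_div_iff₀ (by positivity)]
    have h9 : |ξ| ^ p * ex ξ τ ≤ (1 + |ξ|) ^ p * 1 := by
      gcongr
    calc |ξ| ^ p * ex ξ τ * (1 + ξ ^ 2) ≤ (1 + |ξ|) ^ p * 1 * (1 + |ξ|) ^ 2 := by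
          gcongr
      _ = (1 + |ξ|) ^ p * (1 + |ξ|) ^ 2 := by ring
  have hcont : ∀ τ ∈ Ioo 0 T, Continuous (fun ξ : ℝ => (Complex.I * ξ) ^ p * w ξ τ *
      Complex.exp (Complex.I * x * ξ)) := by
    intro τ hτ
    have h1 : Continuous (fun ξ : ℝ => w ξ τ) := by
      rw [← continuousOn_univ]
      exact hw.comp (f := fun ξ : ℝ => (ξ, τ)) (by fun_prop)
        (fun ξ _ => ⟨mem_univ _, ⟨hτ.1.le, hτ.2.le⟩⟩)
    fun_prop
  have hint : ∀ τ ∈ Ioo 0 T, Integrable (fun ξ : ℝ => (Complex.I * ξ) ^ p * w ξ τ *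
      Complex.exp (Complex.I * x * ξ)) := by
    intro τ hτ
    have hg : Integrable (fun ξ : ℝ => 2 * ε * Real.exp (-(τ / 2) * ξ ^ 2) +
        C * (1 + ξ ^ 2)⁻¹) :=
      ((integrable_exp_neg_mul_sq (by linarith [hτ.1])).const_mul _).add
        (integrable_inv_one_add_sq.const_mul _)
    refine hg.mono' (hcont τ hτ).aestronglyMeasurable (Filter.Eventually.of_forall ?_)
    intro ξ
    rw [hsplit τ hτ ξ]
    refine (norm_add_le _ _).trans (add_le_add ?_ (hnb τ hτ ξ))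
    rw [norm_mul, hnexp, mul_one, Complex.norm_real, Real.norm_eq_abs]
    exact RR_bound hε hτ.1.le ξ
  have hre : ∀ τ ∈ Ioo 0 T, ∀ ξ : ℝ, RR ε ξ τ * Real.cos ξ - C * (1 + ξ ^ 2)⁻¹ ≤
      ((Complex.I * ξ) ^ p * w ξ τ * Complex.exp (Complex.I * x * ξ)).re := by
    intro τ hτ ξ
    rw [hsplit τ hτ ξ, Complex.add_re]
    have h1 : (((RR ε ξ τ : ℝ) : ℂ) * Complex.exp (Complex.I * x * ξ)).re =
        RR ε ξ τ * Real.cos ξ := by
      rw [Complex.re_ofReal_mul, hexp, Complex.exp_ofReal_mul_I_re, hcosx]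
    rw [h1]
    have h2 := (Complex.abs_re_le_norm ((Complex.I * ξ) ^ p * n ξ τ *
      Complex.exp (Complex.I * x * ξ))).trans (hnb τ hτ ξ)
    have h3 := (abs_le.1 h2).1
    linarith
  rw [tendsto_atTop]
  intro M
  -- the constant and the radius
  obtain ⟨R, hR3, hRM⟩ : ∃ R : ℝ, 3 ≤ R ∧
      M + C * Real.pi ≤ ε * ∫ ξ in (3 : ℝ)..R, Real.cos ξ ^ 2 / ξ := by
    have h1 : Tendsto (fun R : ℝ => ε * (1 / 2 * Real.log R -
        (1 / 2 * Real.log 3 + Real.sin (2 * 3) / (4 * 3) + 1 / (4 * 3)))) atTop atTop := by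
      apply Tendsto.const_mul_atTop hε
      apply tendsto_atTop_add_const_right
      exact Tendsto.const_mul_atTop (by norm_num) Real.tendsto_log_atTop
    obtain ⟨R, hR1, hR2⟩ := ((tendsto_atTop.1 h1 (M + C * Real.pi)).and
      (eventually_ge_atTop (3 : ℝ))).exists
    refine ⟨R, hR2, hR1.trans ?_⟩
    exact mul_le_mul_of_nonneg_left (int_low hR2) hε.le
  have hev : ∀ᶠ τ in 𝓝[>] (0 : ℝ), Real.exp (-(R ^ 2 * τ)) ≥ 1 / 2 := by
    have h1 : Tendsto (fun τ : ℝ => Real.exp (-(R ^ 2 * τ))) (𝓝[>] (0 : ℝ)) (𝓝 1) := by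
      have h2 : Continuous (fun τ : ℝ => Real.exp (-(R ^ 2 * τ))) := by fun_prop
      have h3 := h2.tendsto 0
      rw [mul_zero, neg_zero, Real.exp_zero] at h3
      exact h3.mono_left nhdsWithin_le_nhds
    exact h1.eventually (eventually_ge_nhds (by norm_num))
  have hev2 : ∀ᶠ τ in 𝓝[>] (0 : ℝ), τ ∈ Ioo 0 T := Ioo_mem_nhdsGT hT
  filter_upwards [hev, hev2] with τ hτ1 hτ2
  have hreint : (∫ ξ : ℝ, (Complex.I * ξ) ^ p * w ξ τ *
      Complex.exp (Complex.I * x * ξ)).re = ∫ ξ : ℝ, ((Complex.I * ξ) ^ p * w ξ τ *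
      Complex.exp (Complex.I * x * ξ)).re := by
    have h1 := Complex.reCLM.integral_comp_comm (hint τ hτ2)
    simpa using h1.symm
  rw [hreint]
  -- lower bound function
  have hlow : ∀ ξ : ℝ, (Ioc 3 R).indicator (fun ξ => ε * (Real.cos ξ ^ 2 / ξ)) ξ -
      C * (1 + ξ ^ 2)⁻¹ ≤ ((Complex.I * ξ) ^ p * w ξ τ *
      Complex.exp (Complex.I * x * ξ)).re := by
    intro ξ
    refine le_trans ?_ (hre τ hτ2 ξ)
    by_cases h1 : ξ ∈ Ioc 3 R
    · rw [indicator_of_mem h1]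
      have := RR_cos_low hε hτ2.1.le hτ1 h1.1.le h1.2
      linarith
    · rw [indicator_of_notMem h1]
      have := RR_cos_nonneg (τ := τ) hε ξ
      linarith
  have hI1 : IntegrableOn (fun ξ : ℝ => ε * (Real.cos ξ ^ 2 / ξ)) (Ioc 3 R) := by
    apply IntegrableOn.mono_set _ Ioc_subset_Icc_self
    apply ContinuousOn.integrableOn_Icc
    apply ContinuousOn.mul continuousOn_const
    apply ContinuousOn.div (by fun_prop) (by fun_prop)
    intro ξ hξ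
    linarith [hξ.1]
  have hI2 : Integrable ((Ioc 3 R).indicator (fun ξ : ℝ => ε * (Real.cos ξ ^ 2 / ξ))) :=
    (integrable_indicator_iff measurableSet_Ioc).2 hI1
  have hI3 : Integrable (fun ξ : ℝ => C * (1 + ξ ^ 2)⁻¹) :=
    integrable_inv_one_add_sq.const_mul _
  have hfin := integral_mono (hI2.sub hI3) (hint τ hτ2).re hlow
  have hcalc : ∫ ξ : ℝ, ((Ioc 3 R).indicator (fun ξ => ε * (Real.cos ξ ^ 2 / ξ)) ξ -
      C * (1 + ξ ^ 2)⁻¹) = ε * (∫ ξ in (3 : ℝ)..R, Real.cos ξ ^ 2 / ξ) - C * Real.pi := by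
    rw [integral_sub hI2 hI3, integral_indicator measurableSet_Ioc, integral_const_mul,
      integral_const_mul, integral_univ_inv_one_add_sq, intervalIntegral.integral_of_le hR3]
  have hfin2 : (∫ ξ : ℝ, ((Ioc 3 R).indicator (fun ξ => ε * (Real.cos ξ ^ 2 / ξ)) ξ -
      C * (1 + ξ ^ 2)⁻¹)) ≤ ∫ ξ : ℝ, ((Complex.I * ξ) ^ p * w ξ τ *
      Complex.exp (Complex.I * x * ξ)).re := hfin
  rw [hcalc] at hfin2
  linarith

end Pool.Agent.Q231.BB.UNB
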